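import Pool.Agent.Helper48.TF.Defs2

/-! TF, part LE: the even part of the exterior algebra is the universal commutative ring. -/

set_option autoImplicit false

namespace Pool.TF48.H71

open ExteriorAlgebra

section general

variable {k : Type} [CommRing k] {M : Type} [AddCommGroup M] [Module k M] {U : Type} [Ring U]
  [Algebra k U]

lemma cc {a b d : U} (hc : ∀ x y z : U, (x * y - y * x) * z = z * (x * y - y * x)) :
    (a * b - b * a) * (b * d - d * b) = 0 := by
  have h1 := hc (a * b) b d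
  have h2 := hc a b d
  have e1 : a * b * b - b * (a * b) = (a * b - b * a) * b := by noncomm_ring
  rw [e1] at h1
  calc (a * b - b * a) * (b * d - d * b) = (a * b - b * a) * b * d - (a * b - b * a) * d * b := by
        noncomm_ring
    _ = d * ((a * b - b * a) * b) - d * (a * b - b * a) * b := by rw [h1, h2]
    _ = 0 := by noncomm_ring

/-- the linear map `x ↦ [ρ x, ρ m] u` -/
noncomputable def bl (ρ : M →ₗ[k] U) (m : M) (u : U) : M →ₗ[k] U :=
  (LinearMap.mulRight k u).comp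
    ((LinearMap.mulRight k (ρ m) - LinearMap.mulLeft k (ρ m)).comp ρ)

lemma bl_apply (ρ : M →ₗ[k] U) (m : M) (u : U) (x : M) :
    bl ρ m u x = (ρ x * ρ m - ρ m * ρ x) * u := rfl

/-- the maps `φ` with `[ρ x, ρ m] φ m = 0` -/
def V1 (ρ : M →ₗ[k] U) : Submodule k (M →ₗ[k] U) where
  carrier := {φ | ∀ x m, (ρ x * ρ m - ρ m * ρ x) * φ m = 0}
  add_mem' := by
    intro φ ψ h1 h2 x m
    rw [LinearMap.add_apply, mul_add, h1, h2, add_zero]
  zero_mem' := by
    intro x m
    rw [LinearMap.zero_apply, mul_zero]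
  smul_mem' := by
    intro c φ h x m
    rw [LinearMap.smul_apply, mul_smul_comm, h, smul_zero]

/-- multiplication by an element of `M` -/
noncomputable def ep (ρ : M →ₗ[k] U)
    (hc : ∀ x y z : U, (x * y - y * x) * z = z * (x * y - y * x)) :
    M →ₗ[k] Module.End k (U × V1 ρ) :=
  LinearMap.mk₂ k
    (fun m v => (v.2.1 m, ⟨bl ρ m v.1, fun y x => by
      rw [bl_apply, ← mul_assoc, cc hc, zero_mul]⟩))
    (by
      intro m m' v
      refine Prod.ext ?_ (Subtype.ext (LinearMap.ext fun x => ?_))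
      · simp
      · simp only [bl_apply, map_add, Prod.snd_add, Submodule.coe_add, LinearMap.add_apply]
        noncomm_ring)
    (by
      intro c m v
      refine Prod.ext ?_ (Subtype.ext (LinearMap.ext fun x => ?_))
      · simp
      · simp only [bl_apply, map_smul, Prod.smul_snd, Submodule.coe_smul, LinearMap.smul_apply,
          mul_smul_comm, smul_mul_assoc, ← smul_sub])
    (by
      intro m v w
      refine Prod.ext ?_ (Subtype.ext (LinearMap.ext fun x => ?_))
      · simp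
      · simp only [bl_apply, Prod.fst_add, Prod.snd_add, Submodule.coe_add, LinearMap.add_apply,
          mul_add])
    (by
      intro c m v
      refine Prod.ext ?_ (Subtype.ext (LinearMap.ext fun x => ?_))
      · simp
      · simp only [bl_apply, Prod.smul_fst, Prod.smul_snd, Submodule.coe_smul,
          LinearMap.smul_apply, mul_smul_comm])

lemma ep_fst (ρ : M →ₗ[k] U) (hc : ∀ x y z : U, (x * y - y * x) * z = z * (x * y - y * x))
    (m : M) (v : U × V1 ρ) : (ep ρ hc m v).1 = v.2.1 m := rfl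

lemma ep_snd (ρ : M →ₗ[k] U) (hc : ∀ x y z : U, (x * y - y * x) * z = z * (x * y - y * x))
    (m : M) (v : U × V1 ρ) (x : M) :
    (ep ρ hc m v).2.1 x = (ρ x * ρ m - ρ m * ρ x) * v.1 := rfl

lemma ep_sq (ρ : M →ₗ[k] U) (hc : ∀ x y z : U, (x * y - y * x) * z = z * (x * y - y * x))
    (m : M) : ep ρ hc m * ep ρ hc m = 0 := by
  refine LinearMap.ext fun v => Prod.ext ?_ (Subtype.ext (LinearMap.ext fun x => ?_))
  · change (ep ρ hc m (ep ρ hc m v)).1 = 0
    rw [ep_fst, ep_snd, sub_self, zero_mul]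
  · change (ep ρ hc m (ep ρ hc m v)).2.1 x = 0
    rw [ep_snd, ep_fst]
    exact v.2.2 x m

theorem gam (ρ : M →ₗ[k] U) (hc : ∀ x y z : U, (x * y - y * x) * z = z * (x * y - y * x)) :
    ∃ γ : ExteriorAlgebra k M →ₗ[k] U, γ 1 = 1 ∧
      ∀ a b g, γ (ι k a * ι k b * g) = (ρ a * ρ b - ρ b * ρ a) * γ g := by
  set F : ExteriorAlgebra k M →ₐ[k] Module.End k (U × V1 ρ) :=
    ExteriorAlgebra.lift k ⟨ep ρ hc, ep_sq ρ hc⟩ with hF
  refine ⟨(LinearMap.fst k U (V1 ρ)).comp
    ((LinearMap.applyₗ ((1, 0) : U × V1 ρ)).comp F.toLinearMap), ?_, ?_⟩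
  · change (F 1 ((1, 0) : U × V1 ρ)).1 = 1
    rw [map_one]
    rfl
  · intro a b g
    change (F (ι k a * ι k b * g) ((1, 0) : U × V1 ρ)).1 = _ * (F g ((1, 0) : U × V1 ρ)).1
    rw [map_mul, map_mul, hF, lift_ι_apply, lift_ι_apply]
    change (ep ρ hc a (ep ρ hc b _)).1 = _
    rw [ep_fst, ep_snd]

end general

/-- the generators of the even part -/
def gens (X : Type) : Set (ExteriorAlgebra ℤ (X →₀ ℤ)) :=
  {z | ∃ a b : X, z = ι ℤ (Finsupp.single a 1) * ι ℤ (Finsupp.single b 1)}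

lemma sw {M : Type} [AddCommGroup M] (a b : M) :
    (ι ℤ a * ι ℤ b : ExteriorAlgebra ℤ M) = -(ι ℤ b * ι ℤ a) :=
  eq_neg_of_add_eq_zero_left (ι_add_mul_swap a b)

lemma gens_comm (X : Type) : ∀ x ∈ gens X, ∀ y ∈ gens X, x * y = y * x := by
  rintro x ⟨a, b, rfl⟩ y ⟨a', b', rfl⟩
  generalize (Finsupp.single a 1 : X →₀ ℤ) = p
  generalize (Finsupp.single b 1 : X →₀ ℤ) = q
  generalize (Finsupp.single a' 1 : X →₀ ℤ) = p'
  generalize (Finsupp.single b' 1 : X →₀ ℤ) = q'
  have h1 := sw q p'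
  have h2 := sw p p'
  have h3 := sw q q'
  have h4 := sw p q'
  calc ι ℤ p * ι ℤ q * (ι ℤ p' * ι ℤ q') = ι ℤ p * (ι ℤ q * ι ℤ p') * ι ℤ q' := by noncomm_ring
    _ = -(ι ℤ p * ι ℤ p' * (ι ℤ q * ι ℤ q')) := by rw [h1]; noncomm_ring
    _ = -(ι ℤ p' * (ι ℤ p * ι ℤ q') * ι ℤ q) := by rw [h2, h3]; noncomm_ring
    _ = ι ℤ p' * ι ℤ q' * (ι ℤ p * ι ℤ q) := by rw [h4]; noncomm_ring

lemma tf (X : Type) (n : ℤ) (g : ExteriorAlgebra ℤ (X →₀ ℤ)) (hn : n ≠ 0) (h : n • g = 0) :
    g = 0 := by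
  classical
  letI : LinearOrder X := IsWellOrder.linearOrder WellOrderingRel
  have b := (Finsupp.basisSingleOne (R := ℤ) (ι := X)).ExteriorAlgebra
  have h1 : (algebraMap ℤ (ExteriorAlgebra ℤ (X →₀ ℤ)) n) * g = 0 := by
    rw [eq_intCast, ← zsmul_eq_mul]
    exact h
  rw [← Algebra.smul_def] at h1
  have h2 := congrArg b.repr h1
  rw [map_smul, map_zero] at h2
  have h3 : b.repr g = 0 := by
    ext i
    have h4 := DFunLike.congr_fun h2 i
    rw [Finsupp.smul_apply, smul_eq_mul, Finsupp.zero_apply] at h4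
    rw [Finsupp.zero_apply]
    exact (mul_eq_zero.1 h4).resolve_left hn
  exact b.repr.map_eq_zero_iff.1 h3

theorem le : S_LE := by
  intro X
  refine ⟨Subring.closure (gens X), Subring.closureCommRingOfComm (gens_comm X),
    fun a b => ⟨ι ℤ (Finsupp.single a 1) * ι ℤ (Finsupp.single b 1),
      Subring.subset_closure ⟨a, b, rfl⟩⟩, ?_, ?_, ?_, ?_, ?_⟩
  · intro n g hn h
    have h1 : n • (g : ExteriorAlgebra ℤ (X →₀ ℤ)) = 0 := congrArg Subtype.val h
    exact Subtype.ext (tf X n _ hn h1)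
  · intro a
    exact Subtype.ext (ι_sq_zero _)
  · intro a b
    exact Subtype.ext (sw _ _)
  · intro a b a' b'
    refine Subtype.ext ?_
    change ι ℤ (Finsupp.single a 1) * ι ℤ (Finsupp.single b 1) *
      (ι ℤ (Finsupp.single a' 1) * ι ℤ (Finsupp.single b' 1)) +
      ι ℤ (Finsupp.single a 1) * ι ℤ (Finsupp.single a' 1) *
      (ι ℤ (Finsupp.single b 1) * ι ℤ (Finsupp.single b' 1)) = 0
    generalize (Finsupp.single a 1 : X →₀ ℤ) = p
    generalize (Finsupp.single b 1 : X →₀ ℤ) = q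
    generalize (Finsupp.single a' 1 : X →₀ ℤ) = p'
    generalize (Finsupp.single b' 1 : X →₀ ℤ) = q'
    have h1 := sw q p'
    calc ι ℤ p * ι ℤ q * (ι ℤ p' * ι ℤ q') + ι ℤ p * ι ℤ p' * (ι ℤ q * ι ℤ q')
        = ι ℤ p * (ι ℤ q * ι ℤ p') * ι ℤ q' + ι ℤ p * (ι ℤ p' * ι ℤ q) * ι ℤ q' := by
          noncomm_ring
      _ = 0 := by rw [h1]; noncomm_ring
  · intro U _ r hc
    obtain ⟨γ, h1, h2⟩ := gam (Finsupp.linearCombination ℤ r) hc
    refine ⟨γ.toAddMonoidHom.comp (Subring.closure (gens X)).subtype.toAddMonoidHom, h1, ?_⟩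
    intro a b g
    have h3 := h2 (Finsupp.single a 1) (Finsupp.single b 1) (g : ExteriorAlgebra ℤ (X →₀ ℤ))
    rw [Finsupp.linearCombination_single, Finsupp.linearCombination_single, one_smul,
      one_smul] at h3
    exact h3

end Pool.TF48.H71

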