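import Pool.Agent.Helper48.TF.Defs4
import Pool.Agent.Helper41.TF.LEV

/-! TF, part REG: Regev's theorem on tensor products, over the integers. -/

set_option autoImplicit false

namespace Pool.TF48.H71

open Pool.TF48 Pool.TF48.H41 Finset

section mv

variable {R : Type} [NonUnitalRing R]

/-- the value of a multilinear polynomial -/
def mv (n : ℕ) (a : Equiv.Perm (Fin (n + 1)) → ℤ) (s : Fin (n + 1) → R) : R :=
  ∑ σ, a σ • mon n (fun i => s (σ i))

lemma mv_coe (n : ℕ) (a : Equiv.Perm (Fin (n + 1)) → ℤ) (s : Fin (n + 1) → R) :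
    ∑ σ, a σ • (List.ofFn (fun i => (s (σ i) : Unitization ℤ R))).prod =
      ((mv n a s : R) : Unitization ℤ R) := by
  have h := map_sum (Unitization.inrHom ℤ ℤ R) (fun σ : Equiv.Perm (Fin (n + 1)) =>
    a σ • mon n (fun i => s (σ i))) Finset.univ
  simp only [map_zsmul] at h
  refine (Finset.sum_congr rfl fun σ _ => ?_).trans h.symm
  rw [mon_coe n (fun i => s (σ i))]
  rfl

/-- the multilinear map -/
noncomputable def mvG (R : Type) [NonUnitalRing R] (n : ℕ) (a : Equiv.Perm (Fin (n + 1)) → ℤ) :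
    MultilinearMap ℤ (fun _ : Fin (n + 1) => Unitization ℤ R) (Unitization ℤ R) :=
  ∑ σ, a σ • (MultilinearMap.mkPiAlgebraFin ℤ (n + 1) (Unitization ℤ R)).domDomCongr σ

lemma mvG_apply (n : ℕ) (a : Equiv.Perm (Fin (n + 1)) → ℤ) (z : Fin (n + 1) → Unitization ℤ R) :
    mvG R n a z = ∑ σ, a σ • (List.ofFn (fun i => z (σ i))).prod := by
  unfold mvG
  rw [MultilinearMap.sum_apply]
  refine sum_congr rfl fun σ _ => ?_
  rw [MultilinearMap.smul_apply, MultilinearMap.domDomCongr_apply,
    MultilinearMap.mkPiAlgebraFin_apply]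

lemma mvG_coe (n : ℕ) (a : Equiv.Perm (Fin (n + 1)) → ℤ) (s : Fin (n + 1) → R) :
    mvG R n a (fun i => (s i : Unitization ℤ R)) = ((mv n a s : R) : Unitization ℤ R) := by
  rw [mvG_apply, mv_coe]

lemma mv_eq_zero_iff (n : ℕ) (a : Equiv.Perm (Fin (n + 1)) → ℤ) (s : Fin (n + 1) → R) :
    mvG R n a (fun i => (s i : Unitization ℤ R)) = 0 ↔ mv n a s = 0 := by
  rw [mvG_coe, inr_zero_iff]

lemma upd_coe {n : ℕ} (s : Fin (n + 1) → R) (j : Fin (n + 1)) (z : R) :
    (fun i => ((Function.update s j z i : R) : Unitization ℤ R)) =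
      Function.update (fun i => (s i : Unitization ℤ R)) j (z : Unitization ℤ R) := by
  funext i
  by_cases h : i = j
  · subst h; simp
  · rw [Function.update_of_ne h, Function.update_of_ne h]

lemma mv_closure (n : ℕ) (a : Equiv.Perm (Fin (n + 1)) → ℤ) (X : Set R)
    (hX : ∀ s : Fin (n + 1) → R, (∀ i, s i ∈ X) → mv n a s = 0)
    (s : Fin (n + 1) → R) (hs : ∀ i, s i ∈ AddSubgroup.closure X) : mv n a s = 0 := by
  classical
  have key : ∀ (T : Finset (Fin (n + 1))) (s : Fin (n + 1) → R), (∀ i ∈ T, s i ∈ AddSubgroup.closure X) →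
      (∀ i, i ∉ T → s i ∈ X) → mv n a s = 0 := by
    intro T
    induction T using Finset.induction_on with
    | empty => exact fun s _ h => hX s fun i => h i (notMem_empty i)
    | insert j T hj ih =>
      intro s h1 h2
      have h3 : ∀ z ∈ AddSubgroup.closure X, mv n a (Function.update s j z) = 0 := by
        intro z hz
        induction hz using AddSubgroup.closure_induction with
        | mem z hz =>
          refine ih _ (fun i hi => ?_) (fun i hi => ?_)
          · have hij : i ≠ j := fun h => hj (h ▸ hi)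
            rw [Function.update_of_ne hij]
            exact h1 i (mem_insert_of_mem hi)
          · by_cases hij : i = j
            · subst hij
              rw [Function.update_self]
              exact hz
            · rw [Function.update_of_ne hij]
              exact h2 i (fun h => (mem_insert.1 h).elim hij hi)
        | zero =>
          rw [← mv_eq_zero_iff, upd_coe, Unitization.inr_zero]
          exact MultilinearMap.map_update_zero _ _ _
        | add z w _ _ hz hw =>
          rw [← mv_eq_zero_iff, upd_coe] at hz hw ⊢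
          rw [Unitization.inr_add, MultilinearMap.map_update_add, hz, hw, add_zero]
        | neg z _ hz =>
          rw [← mv_eq_zero_iff, upd_coe] at hz ⊢
          have h5 : ((-z : R) : Unitization ℤ R) = (-1 : ℤ) • (z : Unitization ℤ R) := by
            rw [neg_one_zsmul, Unitization.inr_neg]
          rw [h5, MultilinearMap.map_update_smul, hz, smul_zero]
      have h4 := h3 (s j) (h1 j (mem_insert_self j T))
      rwa [Function.update_eq_self] at h4
  exact key univ s (fun i _ => hs i) (fun i hi => absurd (mem_univ i) hi)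

/-- from any nonzero identity of a torsion-free ring to one with coefficient `1` -/
lemma mi_of_ne {n : ℕ} (hR : TorsionFree R) (a : Equiv.Perm (Fin (n + 1)) → ℤ) (ha : a ≠ 0)
    (hid : ∀ s : Fin (n + 1) → R, mv n a s = 0) : MI n R := by
  classical
  let I : AddSubgroup (Equiv.Perm (Fin (n + 1)) → ℤ) :=
    { carrier := {a | ∀ s : Fin (n + 1) → R, mv n a s = 0}
      zero_mem' := fun s => by simp [mv]
      add_mem' := by
        intro a b ha hb s
        have h : mv n (a + b) s = mv n a s + mv n b s := by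
          unfold mv
          rw [← sum_add_distrib]
          exact sum_congr rfl fun σ _ => by rw [Pi.add_apply, add_zsmul]
        rw [h, ha s, hb s, add_zero]
      neg_mem' := by
        intro a ha s
        have h : mv n (-a) s = - mv n a s := by
          unfold mv
          rw [← sum_neg_distrib]
          exact sum_congr rfl fun σ _ => by rw [Pi.neg_apply, neg_zsmul]
        rw [h, ha s, neg_zero] }
  have hI : ∀ b, b ∈ I ↔ ∀ s : Fin (n + 1) → R, mv n b s = 0 := fun b => Iff.rfl
  have htr : ∀ b ∈ I, ∀ π : Equiv.Perm (Fin (n + 1)), (fun ρ => b (π * ρ)) ∈ I := by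
    intro b hb π s
    have h1 := hb (fun i => s (π⁻¹ i))
    rw [← h1]
    unfold mv
    refine Fintype.sum_equiv (Equiv.mulLeft π) _ _ fun ρ => ?_
    rw [Equiv.coe_mulLeft]
    congr 2
    funext i
    simp
  let J : AddSubgroup ℤ := I.map (Pi.evalAddMonoidHom (fun _ => ℤ) 1)
  have hJ : ∀ b ∈ I, ∀ σ, b σ ∈ J := by
    intro b hb σ
    refine ⟨fun ρ => b (σ * ρ), htr b hb σ, ?_⟩
    change b (σ * 1) = b σ
    rw [mul_one]
  obtain ⟨g, hg⟩ := Int.subgroup_cyclic J
  have hdvd : ∀ b ∈ I, ∀ σ, g ∣ b σ := by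
    intro b hb σ
    have h1 := hJ b hb σ
    rw [hg, AddSubgroup.mem_closure_singleton] at h1
    obtain ⟨m, hm⟩ := h1
    exact ⟨m, by rw [← hm, smul_eq_mul, mul_comm]⟩
  have hg0 : g ≠ 0 := by
    rintro rfl
    apply ha
    funext σ
    exact zero_dvd_iff.1 (hdvd a hid σ)
  have hgJ : g ∈ J := by
    rw [hg]
    exact AddSubgroup.subset_closure rfl
  obtain ⟨b, hb, hb1⟩ := hgJ
  have hb1' : b 1 = g := hb1
  choose b' hb' using hdvd b hb
  rw [mi_iff]
  refine ⟨b', ?_, fun s => ?_⟩
  · have h1 := hb' 1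
    rw [hb1'] at h1
    exact mul_left_cancel₀ hg0 (by rw [← h1, mul_one])
  · have h1 : mv n b s = g • mv n b' s := by
      unfold mv
      rw [smul_sum]
      exact sum_congr rfl fun σ _ => by rw [hb' σ, mul_smul]
    have h2 : g • mv n b' s = 0 := by rw [← h1]; exact hb s
    have h3 : g.natAbs • mv n b' s = 0 := by
      rcases Int.natAbs_eq g with h | h
      · rw [h, natCast_zsmul] at h2
        exact h2
      · rw [h, neg_smul, natCast_zsmul, neg_eq_zero] at h2
        exact h2
    exact hR _ _ (Int.natAbs_ne_zero.2 hg0) h3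

end mv

lemma mon_beta {A B S : Type} [NonUnitalRing A] [NonUnitalRing B] [NonUnitalRing S]
    (β : A →+ B →+ S) (hβ : ∀ a b a' b', β a b * β a' b' = β (a * a') (b * b')) (n : ℕ)
    (x : Fin (n + 1) → A) (y : Fin (n + 1) → B) :
    mon n (fun i => β (x i) (y i)) = β (mon n x) (mon n y) := by
  induction n with
  | zero => rfl
  | succ n ih => rw [mon_succ, mon_succ, mon_succ, ih, hβ]

lemma laty_mon (h : S_LATY) {d : ℕ} {S : Type} [NonUnitalRing S] (hS : MI d S) (n : ℕ)
    (σ : Equiv.Perm (Fin (n + 1))) :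
    ∃ c : Equiv.Perm (Fin (n + 1)) → ℤ, (∀ τ, c τ ≠ 0 → ¬ Bad (d + 1) (n + 1) τ) ∧
      ∀ x : Fin (n + 1) → S, mon n (fun i => x (σ i)) = ∑ τ, c τ • mon n (fun i => x (τ i)) := by
  obtain ⟨c, hc, hx⟩ := h d S hS n σ
  refine ⟨c, hc, fun x => ?_⟩
  have h1 := hx x
  rw [mon_coe n (fun i => x (σ i)), mv_coe] at h1
  exact Unitization.inr_injective h1

theorem exists_n (c : ℕ) : ∃ n : ℕ, c ^ (n + 1) < (n + 1).factorial := by
  have h1 := (FloorSemiring.tendsto_pow_div_factorial_atTop (c : ℝ)).eventually_lt_const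
    (show (0 : ℝ) < 1 by norm_num)
  obtain ⟨N, hN⟩ := Filter.eventually_atTop.1 h1
  refine ⟨N, ?_⟩
  have h2 := hN (N + 1) (Nat.le_succ N)
  rw [div_lt_one (by positivity)] at h2
  exact_mod_cast h2

theorem exists_sol {α β : Type} [Fintype α] [Fintype β] (M : Matrix α β ℤ)
    (h : Fintype.card α < Fintype.card β) : ∃ t : β → ℤ, t ≠ 0 ∧ ∀ i, ∑ j, M i j * t j = 0 := by
  rcases Nat.eq_zero_or_pos (Fintype.card α) with h0 | h0
  · have := Fintype.card_eq_zero_iff.1 h0
    have hβ : 0 < Fintype.card β := by omega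
    obtain ⟨j⟩ := Fintype.card_pos_iff.1 hβ
    exact ⟨fun _ => 1, fun h => one_ne_zero (congrFun h j), fun i => (IsEmpty.false i).elim⟩
  · obtain ⟨t, ht, hM, _⟩ := Int.Matrix.exists_ne_zero_int_vec_norm_le M h h0
    exact ⟨t, ht, fun i => congrFun hM i⟩

theorem reg (h1 : S_LATY) (h2 : S_CNT) : S_REG := by
  classical
  intro A B S _ _ _ dA dB β hA hB hS hβ hgen
  obtain ⟨n, hn⟩ := exists_n (dA * dB * (dA * dB))
  choose cA hcA hxA using laty_mon h1 hA n
  choose cB hcB hxB using laty_mon h1 hB n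
  let GA := {σ : Equiv.Perm (Fin (n + 1)) // ¬ Bad (dA + 1) (n + 1) σ}
  let GB := {σ : Equiv.Perm (Fin (n + 1)) // ¬ Bad (dB + 1) (n + 1) σ}
  have hcard : Fintype.card (GA × GB) < Fintype.card (Equiv.Perm (Fin (n + 1))) := by
    rw [Fintype.card_prod, Fintype.card_perm, Fintype.card_fin]
    have e1 := h2 dA (n + 1)
    have e2 := h2 dB (n + 1)
    rw [Nat.card_eq_fintype_card] at e1 e2
    calc Fintype.card GA * Fintype.card GB ≤ dA ^ (2 * (n + 1)) * dB ^ (2 * (n + 1)) :=
          Nat.mul_le_mul e1 e2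
      _ = (dA * dB * (dA * dB)) ^ (n + 1) := by
          rw [← mul_pow, pow_mul]
          congr 1
          ring
      _ < _ := hn
  obtain ⟨a, ha, hsol⟩ := exists_sol
    (Matrix.of fun (p : GA × GB) (σ : Equiv.Perm (Fin (n + 1))) => cA σ p.1.1 * cB σ p.2.1) hcard
  have hall : ∀ τ τ', ∑ σ, a σ * (cA σ τ * cB σ τ') = 0 := by
    intro τ τ'
    by_cases g1 : Bad (dA + 1) (n + 1) τ
    · refine sum_eq_zero fun σ _ => ?_
      have : cA σ τ = 0 := by
        by_contra h
        exact hcA σ τ h g1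
      rw [this, zero_mul, mul_zero]
    · by_cases g2 : Bad (dB + 1) (n + 1) τ'
      · refine sum_eq_zero fun σ _ => ?_
        have : cB σ τ' = 0 := by
          by_contra h
          exact hcB σ τ' h g2
        rw [this, mul_zero, mul_zero]
      · have h3 := hsol (⟨τ, g1⟩, ⟨τ', g2⟩)
        rw [← h3]
        refine sum_congr rfl fun σ _ => ?_
        rw [Matrix.of_apply, mul_comm]
  refine ⟨n, mi_of_ne hS a ha fun s => mv_closure n a {s | ∃ a b, s = β a b} ?_ s
    fun i => hgen (s i)⟩
  intro s hs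
  choose x y hxy using hs
  have hs' : s = fun i => β (x i) (y i) := funext hxy
  rw [hs']
  unfold mv
  have e1 : ∀ σ : Equiv.Perm (Fin (n + 1)), a σ • mon n (fun i => β (x (σ i)) (y (σ i))) =
      ∑ τ, ∑ τ', (a σ * (cA σ τ * cB σ τ')) • β (mon n fun i => x (τ i)) (mon n fun i => y (τ' i)) := by
    intro σ
    rw [mon_beta β hβ n (fun i => x (σ i)) (fun i => y (σ i)), hxA σ x, hxB σ y, map_sum β,
      AddMonoidHom.finsetSum_apply, smul_sum]
    refine sum_congr rfl fun τ _ => ?_
    rw [map_sum, smul_sum]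
    refine sum_congr rfl fun τ' _ => ?_
    rw [map_zsmul, map_zsmul, AddMonoidHom.zsmul_apply, smul_smul, smul_smul]
    congr 1
    ring
  rw [sum_congr rfl fun σ _ => e1 σ, sum_comm]
  refine sum_eq_zero fun τ _ => ?_
  rw [sum_comm]
  refine sum_eq_zero fun τ' _ => ?_
  rw [← sum_smul, hall, zero_smul]

end Pool.TF48.H71

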